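import Mathlib

namespace Pool.Agent.H.MP_3e1815_co

open SimpleGraph

def rows : List ℕ := [638, 421, 347, 469, 333, 451, 189, 362, 190, 31745, 47616, 243200, 118272, 396800, 496128, 482304, 55296, 321536, 188416]

def adjB (a b : Fin 19) : Bool := (rows.getD a.val 0).testBit b.val

def G : SimpleGraph (Fin 19) where
  Adj a b := adjB a b = true
  symm := ⟨by
    have : ∀ a b : Fin 19, adjB a b = true → adjB b a = true := by decide +kernel
    exact this⟩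
  loopless := ⟨by
    have : ∀ a : Fin 19, ¬ adjB a a = true := by decide +kernel
    exact this⟩

instance : DecidableRel G.Adj := fun a b => inferInstanceAs (Decidable (adjB a b = true))

def pawB (a b : Fin 4) : Bool := (([14, 5, 3, 1] : List ℕ).getD a.val 0).testBit b.val

def F : SimpleGraph (Fin 4) where
  Adj a b := pawB a b = true
  symm := ⟨by
    have : ∀ a b : Fin 4, pawB a b = true → pawB b a = true := by decide
    exact this⟩
  loopless := ⟨by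
    have : ∀ a : Fin 4, ¬ pawB a a = true := by decide
    exact this⟩

instance : DecidableRel F.Adj := fun a b => inferInstanceAs (Decidable (pawB a b = true))

def IsPaw {V : Type} (H : SimpleGraph V) (a b c d : V) : Prop :=
  H.Adj a b ∧ H.Adj a c ∧ H.Adj b c ∧ H.Adj a d ∧ ¬ H.Adj b d ∧ ¬ H.Adj c d ∧ b ≠ d ∧ c ≠ d

instance (a b c d : Fin 19) : Decidable (IsPaw G a b c d) := by unfold IsPaw; infer_instance

theorem emb_of_paw {V : Type} {H : SimpleGraph V} {a b c d : V} (h : IsPaw H a b c d) :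
    ∃ e : F ↪g H, e 0 = a ∧ e 1 = b ∧ e 2 = c ∧ e 3 = d := by
  obtain ⟨h1, h2, h3, h4, h5, h6, h7, h8⟩ := h
  have g5 : ¬ H.Adj d b := fun h => h5 h.symm
  have g6 : ¬ H.Adj d c := fun h => h6 h.symm
  refine ⟨⟨⟨![a, b, c, d], ?_⟩, ?_⟩, rfl, rfl, rfl, rfl⟩
  · intro i j hij
    have n1 := h1.ne
    have n2 := h2.ne
    have n3 := h3.ne
    have n4 := h4.ne
    fin_cases i <;> fin_cases j <;> simp_all [eq_comm]
  · intro i j
    have k1 := h1.symm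
    have k2 := h2.symm
    have k3 := h3.symm
    have k4 := h4.symm
    fin_cases i <;> fin_cases j <;> simp [*] <;> decide

theorem paw_of_emb {V : Type} {H : SimpleGraph V} (e : F ↪g H) :
    IsPaw H (e 0) (e 1) (e 2) (e 3) := by
  refine ⟨?_, ?_, ?_, ?_, ?_, ?_, ?_, ?_⟩
  any_goals (rw [e.map_rel_iff]; decide)
  all_goals (intro h; exact absurd (e.injective h) (by decide))

def col (a : Fin 19) : Fin 2 := if (176856 : ℕ).testBit a.val then 1 else 0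

theorem col_ok : ∀ a b : Fin 19, col a = col b → G.Adj a b → ∀ c, col a = col c → G.Adj a c →
    G.Adj b c → ∀ d, col a = col d → ¬ IsPaw G a b c d := by
  decide +kernel

theorem G_col : ∃ c : Fin 19 → Fin 2, ∀ (e : F ↪g G) (i : Fin 2), ¬ ∀ v, c (e v) = i := by
  refine ⟨col, fun e i h => ?_⟩
  have hp := paw_of_emb e
  exact col_ok _ _ (by rw [h, h]) hp.1 _ (by rw [h, h]) hp.2.1 hp.2.2.1 _ (by rw [h, h]) hp

def par (a : Fin 19) : Fin 19 := ([0, 0, 0, 0, 0, 0, 0, 1, 1, 0, 9, 9, 9, 9, 9, 10, 11, 11, 13] : List (Fin 19)).getD a.val 0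

theorem G_conn : G.Connected := by
  have h1 : ∀ a : Fin 19, a ≠ 0 → par a < a ∧ G.Adj a (par a) := by decide +kernel
  have h2 : ∀ a : Fin 19, G.Reachable a 0 := by
    intro a
    induction a using WellFoundedLT.induction with
    | ind a ih =>
      by_cases h : a = 0
      · rw [h]
      · exact (h1 a h).2.reachable.trans (ih _ (h1 a h).1)
  exact ⟨fun a b => (h2 a).trans (h2 b).symm⟩

theorem F_conn : F.Connected := by
  have h1 : ∀ a : Fin 4, a = 0 ∨ F.Adj a 0 := by decide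
  have h2 : ∀ a : Fin 4, F.Reachable a 0 := by
    intro a
    rcases h1 a with h | h
    · rw [h]
    · exact h.reachable
  exact ⟨fun a b => (h2 a).trans (h2 b).symm⟩

def pawsA : List (Fin 19 × Fin 19 × Fin 19 × Fin 19) := [(0, 1, 5, 3), (0, 1, 5, 4), (0, 2, 3, 5), (0, 2, 4, 5), (0, 3, 4, 1), (0, 3, 4, 5), (0, 3, 6, 1), (0, 4, 6, 1), (1, 0, 2, 7), (1, 5, 7, 2), (1, 7, 8, 0), (2, 0, 6, 8), (2, 1, 8, 6), (2, 3, 4, 1), (2, 3, 6, 1), (2, 4, 6, 1), (3, 0, 2, 7), (3, 0, 4, 7), (3, 0, 6, 8), (3, 2, 4, 7), (3, 7, 8, 0), (4, 0, 6, 8), (5, 0, 6, 8), (5, 1, 8, 6), (5, 7, 8, 0), (6, 0, 2, 7), (6, 0, 4, 7), (6, 2, 3, 5), (6, 2, 4, 5), (6, 2, 4, 7), (6, 3, 4, 5), (6, 5, 7, 2), (6, 5, 7, 4), (7, 1, 5, 3), (7, 1, 8, 6), (7, 3, 6, 1), (8, 1, 5, 3), (8, 1, 5, 4), (8, 1, 7, 4), (8, 2, 3, 5), (8, 2, 4, 5), (8, 2, 4, 7), (8, 3, 4, 1), (8, 3, 4, 5), (8, 5, 7, 2), (8, 5, 7, 4)]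
def trisA : List (Fin 19 × Fin 19 × Fin 19) := [(0, 1, 2), (0, 1, 5), (0, 2, 3), (0, 2, 4), (0, 2, 6), (0, 3, 4), (0, 3, 6), (0, 4, 6), (0, 5, 6), (1, 2, 8), (1, 5, 7), (1, 5, 8), (1, 7, 8), (2, 3, 4), (2, 3, 6), (2, 3, 8), (2, 4, 6), (2, 4, 8), (3, 4, 6), (3, 4, 8), (3, 6, 7), (3, 7, 8), (5, 6, 7), (5, 7, 8)]
def pawsB : List (Fin 19 × Fin 19 × Fin 19 × Fin 19) := [(9, 10, 11, 14), (9, 10, 13, 14), (9, 11, 13, 14), (9, 12, 14, 13), (10, 9, 13, 15), (10, 12, 15, 13), (11, 9, 10, 16), (11, 9, 10, 17), (11, 9, 12, 17), (11, 9, 13, 15), (11, 9, 13, 16), (11, 10, 12, 17), (11, 10, 13, 16), (11, 12, 15, 13), (11, 12, 16, 13), (11, 12, 16, 17), (11, 13, 17, 12), (11, 13, 17, 16), (11, 15, 16, 9), (11, 15, 16, 13), (11, 15, 17, 9), (12, 9, 10, 16), (12, 10, 11, 14), (12, 14, 16, 10), (12, 15, 16, 9), (13, 9, 10, 17), (13, 9, 10, 18), (13, 9, 11, 18), (13, 10, 11, 18), (13, 17, 18, 9), (13, 17, 18,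 10), (14, 9, 12, 17), (14, 9, 12, 18), (14, 12, 16, 17), (14, 12, 16, 18), (14, 15, 16, 9), (14, 15, 17, 9), (14, 15, 18, 9), (14, 17, 18, 9), (14, 17, 18, 12), (14, 17, 18, 16), (15, 10, 11, 14), (15, 10, 11, 18), (15, 10, 12, 17), (15, 10, 12, 18), (15, 11, 12, 18), (15, 11, 16, 18), (15, 12, 16, 17), (15, 12, 16, 18), (15, 14, 16, 10), (15, 14, 17, 10), (15, 14, 18, 10), (15, 14, 18, 11), (15, 17, 18, 10), (15, 17, 18, 12), (15, 17, 18, 16), (17, 11, 13, 14), (17, 14, 15, 13), (17, 14, 18, 11), (18, 14, 15, 13)]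
def pathB : List (Fin 19 × Fin 19 × Fin 19 × Fin 19) := [(9, 10, 15, 16), (9, 10, 15, 17), (9, 10, 15, 18), (9, 11, 15, 18), (9, 11, 17, 18), (9, 12, 15, 17), (9, 12, 15, 18), (9, 13, 17, 15), (9, 13, 18, 15), (10, 9, 14, 16), (10, 9, 14, 17), (10, 9, 14, 18), (10, 11, 16, 14), (10, 11, 17, 14), (10, 11, 17, 18), (10, 12, 14, 17), (10, 12, 14, 18), (10, 13, 17, 14), (10, 13, 18, 14), (11, 9, 14, 18), (11, 12, 14, 18), (11, 13, 18, 14), (11, 16, 14, 18), (12, 9, 13, 17), (12, 9, 13, 18), (12, 10, 13, 17), (12, 10, 13, 18), (12, 11, 13, 18), (12, 11, 17, 18), (12, 14, 17, 13), (12, 14, 18, 13), (12, 15, 17, 13), (12, 15, 18, 13), (13, 9, 12, 15), (13, 9, 12, 16), (13, 9, 14, 15), (13, 9, 14, 16), (13, 10, 12, 14), (13, 10, 12, 16), (13, 10, 15, 14), (13, 10, 15, 16), (13, 11, 12, 14), (13, 11, 15, 14), (13, 11, 16, 14), (13, 17, 14, 16), (13, 17, 15, 16), (13, 18, 14, 16), (13, 18, 15, 16), (16,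 11, 13, 18), (16, 11, 17, 18)]

def pawC (p : Fin 19 × Fin 19 × Fin 19 × Fin 19) : Bool :=
  adjB p.1 p.2.1 && adjB p.1 p.2.2.1 && adjB p.2.1 p.2.2.1 && adjB p.1 p.2.2.2 &&
    !adjB p.2.1 p.2.2.2 && !adjB p.2.2.1 p.2.2.2 && p.2.1.val != p.2.2.2.val &&
    p.2.2.1.val != p.2.2.2.val

def triC (p : Fin 19 × Fin 19 × Fin 19) : Bool :=
  adjB p.1 p.2.1 && adjB p.1 p.2.2 && adjB p.2.1 p.2.2

def pathC (p : Fin 19 × Fin 19 × Fin 19 × Fin 19) : Bool :=
  adjB p.1 p.2.1 && adjB p.2.1 p.2.2.1 && adjB p.2.2.1 p.2.2.2 && !adjB p.1 p.2.2.1 &&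
    !adjB p.2.1 p.2.2.2 && !adjB p.1 p.2.2.2 && p.1.val != p.2.2.1.val &&
    p.2.1.val != p.2.2.2.val && p.1.val != p.2.2.2.val

theorem pawC_ok (p : Fin 19 × Fin 19 × Fin 19 × Fin 19) (h : pawC p = true) :
    IsPaw G p.1 p.2.1 p.2.2.1 p.2.2.2 := by
  simp only [pawC, Bool.and_eq_true, Bool.not_eq_true', bne_iff_ne, ne_eq, Fin.val_inj] at h
  simp only [IsPaw, G, Bool.not_eq_true]
  tauto

theorem pawsA_ok : ∀ p ∈ pawsA, IsPaw G p.1 p.2.1 p.2.2.1 p.2.2.2 := fun p hp =>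
  pawC_ok p (List.all_eq_true.mp (by decide +kernel : pawsA.all pawC = true) p hp)
theorem pawsB_ok : ∀ p ∈ pawsB, IsPaw G p.1 p.2.1 p.2.2.1 p.2.2.2 := fun p hp =>
  pawC_ok p (List.all_eq_true.mp (by decide +kernel : pawsB.all pawC = true) p hp)
theorem trisA_ok : ∀ p ∈ trisA, G.Adj p.1 p.2.1 ∧ G.Adj p.1 p.2.2 ∧ G.Adj p.2.1 p.2.2 := by
  intro p hp
  have h := List.all_eq_true.mp (by decide +kernel : trisA.all triC = true) p hp
  simp only [triC, Bool.and_eq_true] at h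
  exact ⟨h.1.1, h.1.2, h.2⟩
theorem pathB_ok : ∀ p ∈ pathB, G.Adj p.1 p.2.1 ∧ G.Adj p.2.1 p.2.2.1 ∧ G.Adj p.2.2.1 p.2.2.2 ∧
    ¬ G.Adj p.1 p.2.2.1 ∧ ¬ G.Adj p.2.1 p.2.2.2 ∧ ¬ G.Adj p.1 p.2.2.2 ∧ p.1 ≠ p.2.2.1 ∧
    p.2.1 ≠ p.2.2.2 ∧ p.1 ≠ p.2.2.2 := by
  intro p hp
  have h := List.all_eq_true.mp (by decide +kernel : pathB.all pathC = true) p hp
  simp only [pathC, Bool.and_eq_true, Bool.not_eq_true', bne_iff_ne, ne_eq, Fin.val_inj] at h
  simp only [G, Bool.not_eq_true]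
  tauto

def all4 (S : Fin 19 → Bool) (t : Bool) (p : Fin 19 × Fin 19 × Fin 19 × Fin 19) : Bool :=
  (S p.1 == t) && (S p.2.1 == t) && (S p.2.2.1 == t) && (S p.2.2.2 == t)

def all3 (S : Fin 19 → Bool) (t : Bool) (p : Fin 19 × Fin 19 × Fin 19) : Bool :=
  (S p.1 == t) && (S p.2.1 == t) && (S p.2.2 == t)

def chkA (S : Fin 19 → Bool) : Bool := pawsA.any (all4 S true) || trisA.any (all3 S false)

def chkB (S : Fin 19 → Bool) : Bool :=
  pawsB.any (all4 S true) || pawsB.any (all4 S false) || pathB.any (all4 S false)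

theorem chkA_ok (S : Fin 19 → Bool) : chkA S = true := by
  have h : ∀ b0 b1 b2 b3 b4 b5 b6 b7 b8 : Bool,
      chkA (fun v => [b0, b1, b2, b3, b4, b5, b6, b7, b8].getD v.val false) = true := by
    decide +kernel
  exact h (S 0) (S 1) (S 2) (S 3) (S 4) (S 5) (S 6) (S 7) (S 8)

theorem chkB_ok (S : Fin 19 → Bool) : chkB S = true := by
  have h : ∀ b0 b1 b2 b3 b4 b5 b6 b7 b8 b9 : Bool,
      chkB (fun v => [b0, b1, b2, b3, b4, b5, b6, b7, b8, b9].getD (v.val - 9) false) = true := by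
    decide +kernel
  exact h (S 9) (S 10) (S 11) (S 12) (S 13) (S 14) (S 15) (S 16) (S 17) (S 18)

theorem paw_map {V : Type} {H : SimpleGraph V} (e : G ↪g H) {a b c d : Fin 19}
    (h : IsPaw G a b c d) : IsPaw H (e a) (e b) (e c) (e d) := by
  obtain ⟨h1, h2, h3, h4, h5, h6, h7, h8⟩ := h
  simp only [IsPaw, e.map_rel_iff, ne_eq, e.injective.eq_iff]
  exact ⟨h1, h2, h3, h4, h5, h6, h7, h8⟩

theorem three_two {V : Type} (H : SimpleGraph V) (c : V → Fin 3)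
    (hc : ∀ (e : F ↪g H) (i : Fin 3), ¬ ∀ v, c (e v) = i) :
    ∃ c' : V → Fin 2, ∀ (e : G ↪g H) (i : Fin 2), ¬ ∀ v, c' (e v) = i := by
  classical
  have np : ∀ i a b x d, c a = i → c b = i → c x = i → c d = i → ¬ IsPaw H a b x d := by
    intro i a b x d ha hb hx hd h
    obtain ⟨e, h0, h1, h2, h3⟩ := emb_of_paw h
    refine hc e i (fun v => ?_)
    fin_cases v
    · exact h0 ▸ ha
    · exact h1 ▸ hb
    · exact h2 ▸ hx
    · exact h3 ▸ hd
  let T : V → Prop := fun v => ∃ x y, c x = 2 ∧ c y = 2 ∧ H.Adj v x ∧ H.Adj v y ∧ H.Adj x y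
  refine ⟨fun v => if c v = 0 then 0 else if c v = 1 then 1 else if T v then 1 else 0, ?_⟩
  intro e i h
  have h3 : ∀ j : Fin 3, j ≠ 0 → j ≠ 1 → j = 2 := by decide
  fin_cases i
  · have hv : ∀ v, c (e v) ≠ 0 → c (e v) = 2 ∧ ¬ T (e v) := by
      intro v h0
      have := h v
      by_cases h1 : c (e v) = 1
      · simp [h1] at this
      · refine ⟨h3 _ h0 h1, fun hT => ?_⟩
        simp [h0, h1, hT] at this
    have hA := chkA_ok (fun v => decide (c (e v) = 0))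
    simp only [chkA, Bool.or_eq_true, List.any_eq_true, all4, all3, Bool.and_eq_true, beq_iff_eq,
      decide_eq_true_eq, decide_eq_false_iff_not] at hA
    rcases hA with ⟨p, hp, ⟨⟨a1, a2⟩, a3⟩, a4⟩ | ⟨p, hp, ⟨a1, a2⟩, a3⟩
    · exact np 0 _ _ _ _ a1 a2 a3 a4 (paw_map e (pawsA_ok p hp))
    · obtain ⟨t1, t2, t3⟩ := trisA_ok p hp
      exact (hv _ a1).2 ⟨_, _, (hv _ a2).1, (hv _ a3).1, e.map_rel_iff.mpr t1,
        e.map_rel_iff.mpr t2, e.map_rel_iff.mpr t3⟩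
  · have hv : ∀ v, c (e v) ≠ 1 → c (e v) = 2 ∧ T (e v) := by
      intro v h1
      have := h v
      by_cases h0 : c (e v) = 0
      · simp [h0] at this
      · refine ⟨h3 _ h0 h1, ?_⟩
        by_contra hT
        simp [h0, h1, hT] at this
    have hB := chkB_ok (fun v => decide (c (e v) = 1))
    simp only [chkB, Bool.or_eq_true, List.any_eq_true, all4, Bool.and_eq_true, beq_iff_eq,
      decide_eq_true_eq, decide_eq_false_iff_not] at hB
    rcases hB with (⟨p, hp, ⟨⟨a1, a2⟩, a3⟩, a4⟩ | ⟨p, hp, ⟨⟨a1, a2⟩, a3⟩, a4⟩) |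
      ⟨p, hp, ⟨⟨a1, a2⟩, a3⟩, a4⟩
    · exact np 1 _ _ _ _ a1 a2 a3 a4 (paw_map e (pawsB_ok p hp))
    · exact np 2 _ _ _ _ (hv _ a1).1 (hv _ a2).1 (hv _ a3).1 (hv _ a4).1
        (paw_map e (pawsB_ok p hp))
    · obtain ⟨q1, q2, q3, q4, q5, q6, q7, q8, q9⟩ := pathB_ok p hp
      rw [← e.map_rel_iff] at q1 q2 q3 q4 q5 q6
      have q7' := fun h => q7 (e.injective h)
      have q8' := fun h => q8 (e.injective h)
      have q9' := fun h => q9 (e.injective h)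
      have c1 := (hv _ a1).1
      have c2 := (hv _ a2).1
      have c3 := (hv _ a3).1
      have c4 := (hv _ a4).1
      obtain ⟨x, y, cx, cy, bx, by', xy⟩ := (hv _ a2).2
      generalize e p.1 = a at *
      generalize e p.2.1 = b at *
      generalize e p.2.2.1 = u at *
      generalize e p.2.2.2 = d at *
      have hz : ∃ z, c z = 2 ∧ H.Adj a z ∧ H.Adj b z := by
        by_cases e1 : x = a
        · exact ⟨y, cy, e1 ▸ xy, by'⟩
        by_cases e2 : y = a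
        · exact ⟨x, cx, e2 ▸ xy.symm, bx⟩
        by_cases e3 : H.Adj x a
        · exact ⟨x, cx, e3.symm, bx⟩
        by_cases e4 : H.Adj y a
        · exact ⟨y, cy, e4.symm, by'⟩
        exact (np 2 b x y a c2 cx cy c1 ⟨bx, by', xy, q1.symm, e3, e4, e1, e2⟩).elim
      obtain ⟨z, cz, az, bz⟩ := hz
      have zu : z ≠ u := fun h => q4 (h ▸ az)
      have zu' : H.Adj z u := by
        by_contra hh
        exact np 2 b a z u c2 c1 cz c3 ⟨q1.symm, bz, az, q2, q4, hh, q7', zu⟩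
      have zd : z ≠ d := fun h => q5 (h ▸ bz)
      have zd' : H.Adj z d := by
        by_contra hh
        exact np 2 u b z d c3 c2 cz c4 ⟨q2.symm, zu'.symm, bz, q3, q5, hh, q8', zd⟩
      exact np 2 z a b d cz c1 c2 c4 ⟨az.symm, bz.symm, q1, zd', q6, q5, q9', q8'⟩

theorem F_in_G : Nonempty (F ↪g G) := by
  obtain ⟨e, -⟩ := emb_of_paw (pawC_ok (0, 1, 5, 3) (by decide +kernel))
  exact ⟨e⟩

end Pool.Agent.H.MP_3e1815_co
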